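import Mathlib

namespace Pool.Agent.Results.MP_9e9eb1_al.OddOrder

open Finset

/-- A real tensor of order `k + 1` and dimension `n`. -/
abbrev Tensor (k n : ℕ) := (Fin (k + 1) → Fin n) → ℝ

/-- Entries are unchanged under permutations of the indices. -/
def IsSymm {k n : ℕ} (B : Tensor k n) : Prop :=
  ∀ (σ : Equiv.Perm (Fin (k + 1))) (i : Fin (k + 1) → Fin n), B (i ∘ σ) = B i

/-- The sum of row `i`. -/
def rowSum {k n : ℕ} (B : Tensor k n) (i : Fin n) : ℝ := ∑ j : Fin k → Fin n, B (Fin.cons i j)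

/-- `B₀` tensors. -/
def IsB0 {k n : ℕ} (B : Tensor k n) : Prop :=
  ∀ i, 0 ≤ rowSum B i ∧
    ∀ j : Fin k → Fin n, j ≠ (fun _ => i) → B (Fin.cons i j) ≤ rowSum B i / (n : ℝ) ^ k

/-- H-eigenvalues: `B x^{m-1} = λ x^{[m-1]}` for a nonzero real vector `x`. -/
def IsHEig {k n : ℕ} (B : Tensor k n) (l : ℝ) : Prop :=
  ∃ x : Fin n → ℝ, x ≠ 0 ∧
    ∀ i, ∑ j : Fin k → Fin n, B (Fin.cons i j) * ∏ t, x (j t) = l * x i ^ k

lemma nonneg {k n : ℕ} (hk : Even k) (B : Tensor k n) (hB : IsB0 B) {l : ℝ} (h : IsHEig B l) :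
    0 ≤ l := by
  obtain ⟨x, hx, h⟩ := h
  obtain ⟨i0, hi0⟩ := Function.ne_iff.1 hx
  obtain ⟨i, -, hi⟩ := exists_max_image univ (fun i => |x i|) ⟨i0, mem_univ _⟩
  have hpos : 0 < |x i| := (abs_pos.2 hi0).trans_le (hi _ (mem_univ _))
  have hn : (0 : ℝ) < (n : ℝ) ^ k := pow_pos (Nat.cast_pos.2 i.pos) _
  set c := rowSum B i / (n : ℝ) ^ k with hc
  have hc0 : 0 ≤ c := div_nonneg (hB i).1 hn.le
  have hP : ∀ j : Fin k → Fin n, ∏ t, x (j t) ≤ x i ^ k := fun j => by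
    refine (le_abs_self _).trans ?_
    rw [abs_prod, ← hk.pow_abs]
    refine (prod_le_prod (fun t _ => abs_nonneg _) fun t _ => hi (j t) (mem_univ _)).trans ?_
    simp
  have h1 : ∑ j : Fin k → Fin n, (B (Fin.cons i j) - c) * x i ^ k ≤
      ∑ j : Fin k → Fin n, (B (Fin.cons i j) - c) * ∏ t, x (j t) := by
    refine sum_le_sum fun j _ => ?_
    by_cases hj : j = fun _ => i
    · simp [hj]
    · exact mul_le_mul_of_nonpos_left (hP j) (sub_nonpos.2 ((hB i).2 j hj))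
  have h2 : ∑ j : Fin k → Fin n, (B (Fin.cons i j) - c) = 0 := by
    rw [sum_sub_distrib, sum_const, card_univ, Fintype.card_fun, Fintype.card_fin,
      Fintype.card_fin, nsmul_eq_mul, hc]
    push_cast
    rw [mul_div_cancel₀ _ hn.ne']; exact sub_self _
  have h3 : ∑ j : Fin k → Fin n, ∏ t, x (j t) = (∑ s, x s) ^ k := by
    rw [Fintype.sum_pow]
  rw [← sum_mul, h2, zero_mul] at h1
  simp only [sub_mul, sum_sub_distrib, ← mul_sum, h i, h3] at h1
  have h4 : 0 ≤ l * x i ^ k := by nlinarith [mul_nonneg hc0 (hk.pow_nonneg (∑ s, x s))]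
  exact nonneg_of_mul_nonneg_left h4 (by rw [← hk.pow_abs]; positivity)

/-- The example of order 3 and dimension 2; an entry depends on the number of indices `1`. -/
def B0 : Tensor 2 2 := fun i => ![6, -1, 1, 3] ⟨(i 0).val + (i 1).val + (i 2).val, by omega⟩

lemma sum2 (f : (Fin 2 → Fin 2) → ℝ) :
    ∑ j, f j = f ![0, 0] + f ![0, 1] + f ![1, 0] + f ![1, 1] := by
  rw [← (piFinTwoEquiv fun _ => Fin 2).symm.sum_comp, Fintype.sum_prod_type]
  simp only [Fin.sum_univ_two, add_assoc]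
  rfl

theorem result :
    (∃ (k n : ℕ) (B : Tensor k n), 2 ≤ k ∧ Even k ∧ 1 ≤ n ∧ IsSymm B ∧ IsB0 B ∧
      ∀ l, ¬ IsHEig B l) ∧
    ∀ (k n : ℕ) (B : Tensor k n), Even k → IsB0 B → ∀ l, IsHEig B l → 0 ≤ l := by
  refine ⟨⟨2, 2, B0, le_rfl, by decide, by decide, fun σ i => ?_, fun i => ?_, ?_⟩,
    fun k n B hk hB l h => nonneg hk B hB h⟩
  · have := Equiv.sum_comp σ fun t => (i t).val
    rw [Fin.sum_univ_three, Fin.sum_univ_three] at this
    exact congrArg (![6, -1, 1, 3] : Fin 4 → ℝ) (Fin.ext this)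
  · have e0 : rowSum B0 0 = 5 := by
      rw [rowSum, sum2]; show (6 : ℝ) + -1 + -1 + 1 = 5; norm_num
    have e1 : rowSum B0 1 = 4 := by
      rw [rowSum, sum2]; show (-1 : ℝ) + 1 + 1 + 3 = 4; norm_num
    have hj : ∀ j : Fin 2 → Fin 2, j = ![0, 0] ∨ j = ![0, 1] ∨ j = ![1, 0] ∨ j = ![1, 1] := by
      decide
    fin_cases i
    · refine ⟨by simp [e0], fun j h => ?_⟩
      simp only [Fin.zero_eta, e0]
      rcases hj j with rfl | rfl | rfl | rfl
      · exact absurd (by decide) h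
      · show (-1 : ℝ) ≤ _; norm_num
      · show (-1 : ℝ) ≤ _; norm_num
      · show (1 : ℝ) ≤ _; norm_num
    · refine ⟨by simp [e1], fun j h => ?_⟩
      simp only [Fin.mk_one, e1]
      rcases hj j with rfl | rfl | rfl | rfl
      · show (-1 : ℝ) ≤ _; norm_num
      · show (1 : ℝ) ≤ _; norm_num
      · show (1 : ℝ) ≤ _; norm_num
      · exact absurd (by decide) h
  · rintro l ⟨x, hx, h⟩
    have a0 := h 0
    have a1 := h 1
    rw [sum2] at a0 a1
    simp only [Fin.prod_univ_two] at a0 a1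
    change 6 * (x 0 * x 0) + -1 * (x 0 * x 1) + -1 * (x 1 * x 0) + 1 * (x 1 * x 1) = _ at a0
    change -1 * (x 0 * x 0) + 1 * (x 0 * x 1) + 1 * (x 1 * x 0) + 3 * (x 1 * x 1) = _ at a1
    have key : (x 0 * (x 0 - x 1)) ^ 2 + (x 1 * (x 0 - x 1)) ^ 2 + (x 0 * x 1) ^ 2 = 0 := by
      linear_combination x 1 ^ 2 * a0 - x 0 ^ 2 * a1
    have s1 := sq_nonneg (x 0 * (x 0 - x 1))
    have s2 := sq_nonneg (x 1 * (x 0 - x 1))
    have s3 := sq_nonneg (x 0 * x 1)
    have k1 : x 0 * (x 0 - x 1) = 0 := pow_eq_zero_iff (two_ne_zero) |>.1 (by linarith)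
    have k2 : x 1 * (x 0 - x 1) = 0 := pow_eq_zero_iff (two_ne_zero) |>.1 (by linarith)
    have k3 : x 0 * x 1 = 0 := pow_eq_zero_iff (two_ne_zero) |>.1 (by linarith)
    apply hx
    funext i
    fin_cases i
    · exact mul_self_eq_zero.1 (by show x 0 * x 0 = 0; linarith)
    · exact mul_self_eq_zero.1 (by show x 1 * x 1 = 0; linarith)

end Pool.Agent.Results.MP_9e9eb1_al.OddOrder
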